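import Pool.Agent.K4H43.IW.Stm
import Pool.Agent.K4H24.IW.Dens
import Pool.Agent.W215.FM.Gen

/-!
# The layers of the cyclotomic `ℤ_p`-extension of `ℚ` have no unramified `p`-extensions
-/

set_option autoImplicit false

namespace Pool.Agent.K4H83.IWQQ

open Subgroup Module IntermediateField Pool.Agent.Q60.MU Pool.Agent.K4H24.IW Pool.Agent.K4H43.IW
open scoped Pointwise commutatorElement

section grp

variable {G : Type} [Group G]

/-- in a group with a normal subgroup `W` such that the quotient is a finite `p`-group every proper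
subgroup which contains `W` is contained in a proper normal subgroup -/
theorem exists_normal {p : ℕ} [Fact p.Prime] {W : Subgroup G} [W.Normal] (hf : W.index ≠ 0)
    (hp : ∀ g : G, ∃ j : ℕ, g ^ p ^ j ∈ W) {H : Subgroup G} (hWH : W ≤ H) (hH : H ≠ ⊤) :
    ∃ M : Subgroup G, M.Normal ∧ H ≤ M ∧ M ≠ ⊤ := by
  have : W.FiniteIndex := ⟨hf⟩
  have hfin : Finite (G ⧸ W) := inferInstance
  have hpg : IsPGroup p (G ⧸ W) := by
    intro x
    obtain ⟨g, rfl⟩ := QuotientGroup.mk_surjective x
    obtain ⟨j, hj⟩ := hp g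
    refine ⟨j, ?_⟩
    rw [← QuotientGroup.mk_pow]
    exact (QuotientGroup.eq_one_iff _).2 hj
  have hnil : Group.IsNilpotent (G ⧸ W) := hpg.isNilpotent
  have hne : H.map (QuotientGroup.mk' W) ≠ ⊤ := by
    intro h
    apply hH
    have h1 := congrArg (comap (QuotientGroup.mk' W)) h
    rw [comap_map_eq, QuotientGroup.ker_mk', comap_top, sup_eq_left.2 hWH] at h1
    exact h1
  obtain ⟨M, hM, hle⟩ := (eq_top_or_exists_le_coatom (H.map (QuotientGroup.mk' W))).resolve_left hne
  have hMn : M.Normal := NormalizerCondition.normal_of_coatom M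
    (Group.normalizerCondition_of_isNilpotent (G := G ⧸ W)) hM
  refine ⟨M.comap (QuotientGroup.mk' W), hMn.comap _, map_le_iff_le_comap.1 hle, fun h => ?_⟩
  apply hM.1
  rw [eq_top_iff]
  rintro x -
  obtain ⟨g, rfl⟩ := QuotientGroup.mk'_surjective W x
  have h1 : g ∈ M.comap (QuotientGroup.mk' W) := by
    rw [h]
    trivial
  exact h1

end grp

/-- **The layers of the cyclotomic tower.** -/
theorem s_qq (hval : S_VAL) : S_QQ := by
  classical
  intro p hpF hp2 R hR m
  obtain ⟨hfd, hNn, hNi, -, hNr⟩ := cyc_facts hp2 hR m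
  have hp : p.Prime := hpF.1
  set N := (R m).fixingSubgroup with hN
  have hNo : IsOpen (N : Set Gal(Qb/ℚ)) := (R m).fixingSubgroup_isOpen
  have hN0 : N.index ≠ 0 := by
    rw [hNi]
    exact pow_ne_zero _ hp.ne_zero
  intro W₀ hW₀N hW₀o hW₀f hg₀
  obtain ⟨W, hWW₀, hWo, hWf, hg, hWn⟩ := exists_core (p := p) (I := inertia) inertia_conj
    (K := N) (D := ⊤) (W := W₀) (fun d _ x hx => hNn.conj_mem x hx d) (by
      rw [relIndex_top_right]
      exact hN0) hW₀N hW₀o hW₀f hg₀
  have hWN : W ≤ N := hWW₀.trans hW₀N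
  have hWnorm : W.Normal := ⟨fun x hx d => hWn d trivial x hx⟩
  have hW0 : W.index ≠ 0 := by
    rw [← relIndex_mul_index hWN]
    exact mul_ne_zero hWf hN0
  have hpow : ∀ g : Gal(Qb/ℚ), ∃ j : ℕ, g ^ p ^ j ∈ W := by
    intro g
    refine ⟨m + 1, ?_⟩
    have h1 : g ^ p ^ m ∈ N := by
      rw [← hNi]
      exact pow_index_mem N g
    rw [pow_succ, pow_mul]
    exact hg (Or.inl (Or.inl ⟨_, h1, rfl⟩))
  -- Minkowski
  have hmink : ∀ M : Subgroup Gal(Qb/ℚ), M.Normal → W ≤ M →
      (∀ A, inertia A ≤ M) → M = ⊤ := by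
    intro M hMn hWM hI
    rw [eq_top_iff]
    intro g _
    have hk : IsOpen ((QuotientGroup.mk' M).ker : Set Gal(Qb/ℚ)) := by
      rw [QuotientGroup.ker_mk']
      exact Subgroup.isOpen_mono hWM hWo
    have h1 := Pool.Agent.W215.FM.main (Gal(Qb/ℚ) ⧸ M) (QuotientGroup.mk' M) hk (by
      intro P hP τ hτ
      obtain ⟨A, -, hA2⟩ := hval P hP
      exact (QuotientGroup.eq_one_iff _).2 (hI A (hA2 τ hτ))) g
    exact (QuotientGroup.eq_one_iff _).1 h1
  -- inertia away from `p`
  have haway : ∀ A, (p : Qb) ∉ A.nonunits → inertia A ≤ W := by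
    intro A hA σ hσ
    have h1 : σ ∈ N := by
      by_contra h
      exact hA (hNr A σ hσ h)
    exact hg (Or.inr ⟨h1, A, hσ⟩)
  have hWeq : W = N := by
    by_cases hex : ∃ A₀ : ValuationSubring Qb, (p : Qb) ∈ A₀.nonunits
    · obtain ⟨A₀, hA₀⟩ := hex
      have htop : W ⊔ inertia A₀ = ⊤ := by
        by_contra hne
        obtain ⟨M, hMn, hHM, hMt⟩ := exists_normal hW0 hpow (le_sup_left : W ≤ W ⊔ inertia A₀) hne
        apply hMt
        refine hmink M hMn (le_sup_left.trans hHM) fun A => ?_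
        by_cases hA : (p : Qb) ∈ A.nonunits
        · obtain ⟨g, hg⟩ := exists_smul_eq hp A₀ A hA₀ hA
          intro σ hσ
          have h1 := inertia_conj g A σ hσ
          rw [← hg] at h1
          have h2 : g * σ * g⁻¹ ∈ M := hHM (le_sup_right (a := W) h1)
          have h3 := hMn.conj_mem _ h2 g⁻¹
          have h4 : g⁻¹ * (g * σ * g⁻¹) * g⁻¹⁻¹ = σ := by group
          rwa [h4] at h3
        · exact (haway A hA).trans (le_sup_left.trans hHM)
      refine le_antisymm hWN fun n hn => ?_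
      have h1 : n ∈ W ⊔ inertia A₀ := by
        rw [htop]
        trivial
      obtain ⟨w, hw, σ, hσ, rfl⟩ := mem_sup_of_normal_left.1 h1
      have h2 : σ ∈ N := by
        have h3 := N.mul_mem (N.inv_mem (hWN hw)) hn
        rwa [inv_mul_cancel_left] at h3
      exact W.mul_mem hw (hg (Or.inr ⟨h2, A₀, hσ⟩))
    · push Not at hex
      have h1 := hmink W hWnorm le_rfl fun A => haway A (hex A)
      exact le_antisymm hWN (h1 ▸ le_top)
  have hWW : W₀ = N := le_antisymm hW₀N (hWeq ▸ hWW₀)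
  rw [hWW, relIndex_self]

end Pool.Agent.K4H83.IWQQ
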